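import Mathlib

/-!
# Coefficient systems on symplectic representations: definitions

`Γ` is a group (the Galois group of a field), `H = L^w` a representation with a nondegenerate
alternating form with multiplier `χ` (the Tate module of an abelian variety, tensored with a field
`L` which contains `ℚ_ℓ`, the Weil pairing and the cyclotomic character).
-/

namespace Pool.Agent.L5helper73.TC

open Matrix Finset

noncomputable section

variable {L : Type} [Field L] {Γ : Type} [Group Γ] {w : ℕ}

/-- The representation `ρ` on `L^w` preserves the nondegenerate alternating form `E` up to the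
character `χ`. -/
structure Symp (ρ : Γ →* Matrix (Fin w) (Fin w) L) (χ : Γ →* Lˣ)
    (E : Matrix (Fin w) (Fin w) L) : Prop where
  alt : Eᵀ = -E
  unit : IsUnit E.det
  sim : ∀ γ, (ρ γ)ᵀ * E * ρ γ = (χ γ : L) • E

/-- A multilinear form `t` on `H = L^w` with `2 r` variables, indexed by `κ` (given by its values on
the basis vectors), is a Tate form if
`t(γ x_1, ..., γ x_{2r}) = χ(γ)^r t(x_1, ..., x_{2r})` for all `γ` in a subgroup of finite index: it
gives a Tate class in `H^{2r}(A^{2r})(r)` for the abelian variety `A`. -/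
def IsTate (ρ : Γ →* Matrix (Fin w) (Fin w) L) (χ : Γ →* Lˣ) {κ : Type} [Fintype κ]
    [DecidableEq κ] (t : (κ → Fin w) → L) : Prop :=
  ∃ r : ℕ, Fintype.card κ = 2 * r ∧ ∃ Δ : Subgroup Γ, Δ.FiniteIndex ∧ ∀ γ ∈ Δ, ∀ J,
    ∑ J' : κ → Fin w, (∏ k, ρ γ (J' k) (J k)) * t J' = (χ γ : L) ^ r * t J

/-- A system of forms on `L^w` (for instance the spans of the algebraic classes on the powers), closed
under permutations of the variables (bijections of index sets) and products, and containing the
constants and all bilinear Tate forms (divisors on `A × A`: theorem of Faltings). -/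
structure ClassSystem (ρ : Γ →* Matrix (Fin w) (Fin w) L) (χ : Γ →* Lˣ)
    (𝒜 : ∀ κ : Type, Submodule L ((κ → Fin w) → L)) : Prop where
  perm : ∀ (κ l : Type) [Fintype κ] [Fintype l] (e : κ ≃ l) (t : (κ → Fin w) → L),
    t ∈ 𝒜 κ → (fun J => t fun k => J (e k)) ∈ 𝒜 l
  one : (fun _ => 1) ∈ 𝒜 (Fin 0)
  mul : ∀ (κ l : Type) [Fintype κ] [Fintype l] (t : (κ → Fin w) → L)
    (u : (l → Fin w) → L), t ∈ 𝒜 κ → u ∈ 𝒜 l →
    (fun J : κ ⊕ l → Fin w => (t fun k => J (Sum.inl k)) * u fun k => J (Sum.inr k)) ∈ 𝒜 (κ ⊕ l)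
  bil : ∀ t : (Fin 2 → Fin w) → L, IsTate ρ χ t → t ∈ 𝒜 (Fin 2)

/-- A coefficient system: a decomposition of `L^w` into the direct sum of `Γ`-stable subspaces `V_i`,
`i` in a finite set `I` with an involution `st`, given by the projectors `P i` (some can be zero);
`V_i` and `V_j` are orthogonal unless `j = st i`.  For instance the isotypic decomposition for a
finite abelian group of automorphisms of the polarised abelian variety. -/
structure Coeff (ρ : Γ →* Matrix (Fin w) (Fin w) L) (E : Matrix (Fin w) (Fin w) L) {I : Type}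
    [Fintype I] [DecidableEq I] (st : I → I) (P : I → Matrix (Fin w) (Fin w) L) : Prop where
  inv : ∀ i, st (st i) = i
  idem : ∀ i, P i * P i = P i
  orth : ∀ i j, i ≠ j → P i * P j = 0
  sum : ∑ i, P i = 1
  comm : ∀ γ i, ρ γ * P i = P i * ρ γ
  adj : ∀ i, (P i)ᵀ * E = E * P (st i)

/-- `X` is in the Lie algebra of the Zariski closure of the set `S` of invertible matrices (a group):
for each polynomial `f` in the entries of a matrix which vanishes on `S`, the derivative of `f` at the
unit matrix in the direction `X` is zero. -/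
def InLie (S : Set (Matrix (Fin w) (Fin w) L)) (X : Matrix (Fin w) (Fin w) L) : Prop :=
  ∀ f : MvPolynomial (Fin w × Fin w) L, (∀ g ∈ S, MvPolynomial.eval (fun z => g z.1 z.2) f = 0) →
    ∑ z, MvPolynomial.eval (fun z => (1 : Matrix (Fin w) (Fin w) L) z.1 z.2)
      (MvPolynomial.pderiv z f) * X z.1 z.2 = 0

/-- `X` is in the Lie algebra of the algebraic monodromy group: of the Zariski closure of the image of
each subgroup of finite index. -/
def InMonodromy (ρ : Γ →* Matrix (Fin w) (Fin w) L) (X : Matrix (Fin w) (Fin w) L) : Prop :=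
  ∀ Δ : Subgroup Γ, Δ.FiniteIndex → InLie (ρ '' (Δ : Set Γ)) X

/-- The monodromy is as large as the coefficient system allows, up to the centre: its Lie algebra
contains all operators which preserve the `V_i`, are skew for `E` and have trace zero on each `V_i`;
that is the product of the `𝔰𝔩(V_i)` (one for each pair `i`, `st i`) and of the `𝔰𝔭(V_i)` for
`i = st i`. -/
def BigMonodromy (ρ : Γ →* Matrix (Fin w) (Fin w) L) (E : Matrix (Fin w) (Fin w) L) {I : Type}
    (P : I → Matrix (Fin w) (Fin w) L) : Prop :=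
  ∀ X : Matrix (Fin w) (Fin w) L, (∀ i, X * P i = P i * X) → Xᵀ * E + E * X = 0 →
    (∀ i, (X * P i).trace = 0) → InMonodromy ρ X

/-- Hodge-Tate projectors, indexed by the units modulo `m` (the embeddings of the field of `m`-th
roots of unity): `h u` is the projector to the part of weight one of the Hodge-Tate decomposition at
a place over `ℓ` (Sen: the projector is in the Lie algebra of the algebraic monodromy group). -/
structure HodgeTate (ρ : Γ →* Matrix (Fin w) (Fin w) L) (E : Matrix (Fin w) (Fin w) L) {I : Type}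
    (P : I → Matrix (Fin w) (Fin w) L) {U : Type} (h : U → Matrix (Fin w) (Fin w) L) : Prop where
  idem : ∀ u, h u * h u = h u
  comm : ∀ u i, h u * P i = P i * h u
  adj : ∀ u, (h u)ᵀ * E + E * h u = E
  mon : ∀ u, InMonodromy ρ (h u)

/-- The product of the determinants of the `V_{C q}`: the multilinear form with `dim V_{C q}`
variables for each `q`, a product of minors of the projectors `P (C q)` of size
`dim V_{C q} = rank P (C q)`, with rows `K q` (for different `K` these are multiples of one
form). -/
def detForm {I : Type} (P : I → Matrix (Fin w) (Fin w) L) {s : ℕ} (C : Fin s → I)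
    (K : ∀ q, Fin (P (C q)).rank → Fin w) : ((Σ q, Fin (P (C q)).rank) → Fin w) → L :=
  fun J => ∏ q, ((P (C q)).submatrix (K q) fun a => J ⟨q, a⟩).det

/-- The statement of the reduction theorem. -/
def S_T : Prop := ∀ (L : Type) [Field L] [CharZero L] (Γ : Type) [Group Γ] (w : ℕ)
  (ρ : Γ →* Matrix (Fin w) (Fin w) L) (χ : Γ →* Lˣ) (E : Matrix (Fin w) (Fin w) L)
  (I : Type) [Fintype I] [DecidableEq I] (st : I → I) (P : I → Matrix (Fin w) (Fin w) L)
  (U : Type) (h : U → Matrix (Fin w) (Fin w) L),
  Symp ρ χ E → Coeff ρ E st P → BigMonodromy ρ E P → HodgeTate ρ E P h →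
  ∀ (𝒜 : ∀ κ : Type, Submodule L ((κ → Fin w) → L)), ClassSystem ρ χ 𝒜 →
  (∀ (s : ℕ) (C : Fin s → I), (∀ q, P (C q) ≠ 0) → (∀ q q', C q ≠ st (C q')) →
    (∀ u : U, ∑ q, ((h u * P (C q)).trace - (P (C q)).trace / 2) = 0) →
    ∀ K, detForm P C K ∈ 𝒜 (Σ q, Fin (P (C q)).rank)) →
  ∀ (κ : Type) [Fintype κ] [DecidableEq κ] (t : (κ → Fin w) → L), IsTate ρ χ t → t ∈ 𝒜 κ

end

end Pool.Agent.L5helper73.TC
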