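import Mathlib
import Pool.Agent.L5helper73.CC.A3
import Pool.Agent.L5helper73.TC.Defs

/-!
# Forms by their values on the standard basis, over a field
-/

set_option linter.unusedSectionVars false

namespace Pool.Agent.L5helper73.TC

open Module Finset Pool.Agent.L5helper73.CC Pool.Agent.Y90

noncomputable section

variable {L : Type} [Field L] [CharZero L] {w : ℕ}

/-- The multilinear form with given values on the standard basis. -/
def mm {κ : Type} [Fintype κ] [DecidableEq κ] (f : (κ → Fin w) → L) :
    MultilinearMap L (fun _ : κ => Fin w → L) L :=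
  ∑ J, f J • (MultilinearMap.mkPiAlgebra L κ L).compLinearMap fun k => LinearMap.proj (J k)

theorem mm_apply {κ : Type} [Fintype κ] [DecidableEq κ] (f : (κ → Fin w) → L)
    (v : κ → Fin w → L) : mm f v = ∑ J, f J * ∏ k, v k (J k) := by
  unfold mm
  rw [_root_.sum_apply]
  refine Finset.sum_congr rfl fun J _ => ?_
  rw [MultilinearMap.smul_apply, MultilinearMap.compLinearMap_apply,
    MultilinearMap.mkPiAlgebra_apply, smul_eq_mul]
  rfl

/-- The values of a form on the standard basis. -/
def evS {κ : Type} : MultilinearMap L (fun _ : κ => Fin w → L) L →ₗ[L] ((κ → Fin w) → L) where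
  toFun φ := fun J => φ (fun k => Pi.single (J k) 1)
  map_add' _ _ := rfl
  map_smul' _ _ := rfl

theorem evS_apply {κ : Type} (φ : MultilinearMap L (fun _ : κ => Fin w → L) L) (J : κ → Fin w) :
    evS φ J = φ fun k => Pi.single (J k) 1 := rfl

theorem evS_mm {κ : Type} [Fintype κ] [DecidableEq κ] (f : (κ → Fin w) → L) : evS (mm f) = f := by
  funext J
  rw [evS_apply, mm_apply, Finset.sum_eq_single J]
  · rw [Finset.prod_eq_one, mul_one]
    intro k _
    rw [Pi.single_eq_same]
  · intro J' _ hJ'
    have h1 : ∃ k, J' k ≠ J k := by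
      by_contra hcon
      push Not at hcon
      exact hJ' (funext hcon)
    obtain ⟨k, hk⟩ := h1
    rw [Finset.prod_eq_zero (Finset.mem_univ k), mul_zero]
    rw [Pi.single_eq_of_ne hk]
  · intro h
    exact absurd (Finset.mem_univ _) h

theorem ext_evS {κ : Type} [Finite κ] {φ ψ : MultilinearMap L (fun _ : κ => Fin w → L) L}
    (h : evS φ = evS ψ) : φ = ψ := by
  refine Basis.ext_multilinear (fun _ => Pi.basisFun L (Fin w)) fun J => ?_
  have h1 := congrFun h J
  rw [evS_apply, evS_apply] at h1
  simpa using h1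

/-- The action of a matrix on a form, on the standard basis. -/
theorem act_std {κ : Type} [Fintype κ] [DecidableEq κ]
    (φ : MultilinearMap L (fun _ : κ => Fin w → L) L) (g : Matrix (Fin w) (Fin w) L)
    (J : κ → Fin w) : act φ (Matrix.toLin' g) (fun k => Pi.single (J k) 1) =
      ∑ k, ∑ l, g l (J k) * evS φ (Function.update J k l) := by
  unfold act
  refine Finset.sum_congr rfl fun k _ => ?_
  have h1 : Matrix.toLin' g (Pi.single (J k) 1) = ∑ l, g l (J k) • (Pi.single l 1 : Fin w → L) := by
    rw [Matrix.toLin'_apply, Matrix.mulVec_single_one]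
    funext i
    rw [Finset.sum_apply, Finset.sum_eq_single i]
    · simp
    · intro l _ hl
      rw [Pi.smul_apply, Pi.single_eq_of_ne hl.symm, smul_zero]
    · intro h
      exact absurd (Finset.mem_univ _) h
  rw [h1, MultilinearMap.map_update_sum]
  refine Finset.sum_congr rfl fun l _ => ?_
  rw [MultilinearMap.map_update_smul, smul_eq_mul, evS_apply]
  congr 2
  funext i
  by_cases hi : i = k
  · subst hi
    rw [Function.update_self, Function.update_self]
  · rw [Function.update_of_ne hi, Function.update_of_ne hi]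

/-- The action of an operator as a multilinear form. -/
def actM {κ : Type} [Fintype κ] [DecidableEq κ] (φ : MultilinearMap L (fun _ : κ => Fin w → L) L)
    (X : (Fin w → L) →ₗ[L] (Fin w → L)) : MultilinearMap L (fun _ : κ => Fin w → L) L :=
  ∑ k, φ.compLinearMap fun l => if l = k then X else LinearMap.id

theorem actM_apply {κ : Type} [Fintype κ] [DecidableEq κ]
    (φ : MultilinearMap L (fun _ : κ => Fin w → L) L) (X : (Fin w → L) →ₗ[L] (Fin w → L))
    (v : κ → Fin w → L) : actM φ X v = act φ X v := by
  unfold actM act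
  rw [_root_.sum_apply]
  refine Finset.sum_congr rfl fun k _ => ?_
  rw [MultilinearMap.compLinearMap_apply]
  congr 1
  funext l
  by_cases hl : l = k
  · subst hl
    rw [if_pos rfl, Function.update_self]
  · rw [if_neg hl, Function.update_of_ne hl]
    rfl

/-- A form is multiplied by `c` if it is so on the standard basis. -/
theorem act_of {κ : Type} [Fintype κ] [DecidableEq κ]
    (φ : MultilinearMap L (fun _ : κ => Fin w → L) L) (g : Matrix (Fin w) (Fin w) L) (c : L)
    (h : ∀ J, ∑ k, ∑ l, g l (J k) * evS φ (Function.update J k l) = c * evS φ J)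
    (v : κ → Fin w → L) : act φ (Matrix.toLin' g) v = c * φ v := by
  have h1 : actM φ (Matrix.toLin' g) = c • φ := by
    apply ext_evS
    funext J
    rw [evS_apply, actM_apply, act_std, h]
    rfl
  rw [← actM_apply, h1]
  rfl

/-- multilinear expansion of one determinant -/
theorem det_expand {n : ℕ} (P : Matrix (Fin w) (Fin w) L) {ι : Type} [Fintype ι] [DecidableEq ι]
    (e : ι ≃ Fin n) (r : ι → Fin w → L) (hr : ∀ y, Matrix.vecMul (r y) P = r y)
    (J : Fin n → Fin w) :
    Matrix.det (Matrix.of fun y y' : ι => r y' (J (e y))) =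
      ∑ K : Fin n → Fin w, (∏ a, r (e.symm a) (K a)) * (P.submatrix K J).det := by
  have h0 : (Matrix.of fun y y' : ι => r y' (J (e y))).det =
      (Matrix.of fun a b : Fin n => r (e.symm a) (J b)).det := by
    rw [← Matrix.det_transpose (Matrix.of fun a b : Fin n => r (e.symm a) (J b)),
      ← Matrix.det_submatrix_equiv_self e]
    congr 1
    ext y y'
    simp
  rw [h0]
  have h1 : (Matrix.of fun a b : Fin n => r (e.symm a) (J b)) =
      fun a : Fin n => ∑ k : Fin w, r (e.symm a) k • fun b => P k (J b) := by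
    funext a b
    rw [Finset.sum_apply]
    simp only [Matrix.of_apply, Pi.smul_apply, smul_eq_mul]
    have := congrFun (hr (e.symm a)) (J b)
    rw [← this]
    rfl
  rw [h1]
  have h2 := (Matrix.detRowAlternating (R := L) (n := Fin n)).toMultilinearMap.map_sum
    (fun (a : Fin n) (k : Fin w) => r (e.symm a) k • fun b => P k (J b))
  have h3 : Matrix.det (fun a : Fin n => ∑ k : Fin w, r (e.symm a) k • fun b => P k (J b)) =
      ∑ K : Fin n → Fin w, Matrix.det (fun a : Fin n => r (e.symm a) (K a) • fun b => P (K a) (J b)) :=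
    h2
  rw [h3]
  refine Finset.sum_congr rfl fun K _ => ?_
  have h4 := (Matrix.detRowAlternating (R := L) (n := Fin n)).toMultilinearMap.map_smul_univ
    (fun a => r (e.symm a) (K a)) (fun a b => P (K a) (J b))
  have h5 : Matrix.det (fun a : Fin n => r (e.symm a) (K a) • fun b => P (K a) (J b)) =
      (∏ a, r (e.symm a) (K a)) • Matrix.det (fun a b => P (K a) (J b)) := h4
  rw [h5, smul_eq_mul]
  rfl

theorem minor (s : ℕ) (P : Fin s → Matrix (Fin w) (Fin w) L) (ι : Fin s → Type)
    [∀ q, Fintype (ι q)] [∀ q, DecidableEq (ι q)] (n : Fin s → ℕ) (e : ∀ q, ι q ≃ Fin (n q))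
    (r : ∀ q, ι q → Fin w → L) (hr : ∀ q y, Matrix.vecMul (r q y) (P q) = r q y) :
    (fun J : (Σ q, Fin (n q)) → Fin w => ∏ q, Matrix.det (Matrix.of fun y y' : ι q =>
      r q y' (J ⟨q, e q y⟩))) ∈ Submodule.span L (Set.range fun K : ∀ q, Fin (n q) → Fin w =>
        fun J : (Σ q, Fin (n q)) → Fin w => ∏ q, ((P q).submatrix (K q) fun a => J ⟨q, a⟩).det) := by
  have h1 : (fun J : (Σ q, Fin (n q)) → Fin w => ∏ q, Matrix.det (Matrix.of fun y y' : ι q =>
      r q y' (J ⟨q, e q y⟩))) = ∑ K : ∀ q, Fin (n q) → Fin w,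
        (∏ q, ∏ a, r q ((e q).symm a) (K q a)) •
          fun J : (Σ q, Fin (n q)) → Fin w => ∏ q, ((P q).submatrix (K q) fun a => J ⟨q, a⟩).det := by
    funext J
    rw [Finset.sum_apply]
    simp only [Pi.smul_apply, smul_eq_mul]
    rw [Finset.prod_congr rfl fun q _ => det_expand (P q) (e q) (r q) (hr q) fun a => J ⟨q, a⟩]
    rw [Finset.prod_univ_sum]
    rw [Fintype.piFinset_univ]
    exact Finset.sum_congr rfl fun K _ => Finset.prod_mul_distrib
  rw [h1]
  exact Submodule.sum_mem _ fun K _ => Submodule.smul_mem _ _ (Submodule.subset_span ⟨K, rfl⟩)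

/-- The rank of a projector in an adapted basis. -/
theorem rank (P : Matrix (Fin w) (Fin w) L) (R : Type) [Fintype R]
    [DecidableEq R] (e : Module.Basis R L (Fin w → L)) (T : R → Prop) [DecidablePred T]
    (hP : ∀ x, P.mulVec (e x) = if T x then e x else 0) :
    P.rank = Fintype.card {x // T x} := by
  have h1 : LinearMap.range P.mulVecLin =
      Submodule.span L (Set.range fun x : {x // T x} => e x.1) := by
    apply le_antisymm
    · rintro _ ⟨v, rfl⟩
      rw [← e.sum_repr v, map_sum]
      refine Submodule.sum_mem _ fun x _ => ?_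
      rw [map_smul, Matrix.mulVecLin_apply, hP]
      refine Submodule.smul_mem _ _ ?_
      split_ifs with h
      · exact Submodule.subset_span ⟨⟨x, h⟩, rfl⟩
      · exact Submodule.zero_mem _
    · rw [Submodule.span_le]
      rintro _ ⟨⟨x, hx⟩, rfl⟩
      refine ⟨e x, ?_⟩
      rw [Matrix.mulVecLin_apply, hP, if_pos hx]
  rw [Matrix.rank, h1]
  exact finrank_span_eq_card (e.linearIndependent.comp _ Subtype.val_injective)

end

end Pool.Agent.L5helper73.TC
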