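import Mathlib
import Pool.Agent.L5helper73.TC.Defs

/-!
# The derivative of the invariance of a Tate form
-/

set_option linter.unusedSectionVars false

namespace Pool.Agent.L5helper73.TC

open Module Finset

noncomputable section

variable {L : Type} [Field L] {w : ℕ}

/-- The unit matrix as a point. -/
def pt (w : ℕ) (L : Type) [Field L] : Fin w × Fin w → L :=
  fun z => (1 : Matrix (Fin w) (Fin w) L) z.1 z.2

/-- The derivative at the unit matrix in the direction `X`. -/
def D (X : Matrix (Fin w) (Fin w) L) (f : MvPolynomial (Fin w × Fin w) L) : L :=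
  ∑ z, MvPolynomial.eval (pt w L) (MvPolynomial.pderiv z f) * X z.1 z.2

variable (X : Matrix (Fin w) (Fin w) L)

theorem D_add (f g : MvPolynomial (Fin w × Fin w) L) : D X (f + g) = D X f + D X g := by
  unfold D
  rw [← Finset.sum_add_distrib]
  refine Finset.sum_congr rfl fun z _ => ?_
  rw [map_add, map_add, add_mul]

theorem D_zero : D X (0 : MvPolynomial (Fin w × Fin w) L) = 0 := by
  unfold D
  refine Finset.sum_eq_zero fun z _ => ?_
  rw [map_zero, map_zero, zero_mul]

theorem D_neg (f : MvPolynomial (Fin w × Fin w) L) : D X (-f) = -D X f := by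
  have h := D_add X f (-f)
  rw [add_neg_cancel, D_zero] at h
  exact eq_neg_of_add_eq_zero_right h.symm

theorem D_sub (f g : MvPolynomial (Fin w × Fin w) L) : D X (f - g) = D X f - D X g := by
  rw [sub_eq_add_neg, D_add, D_neg, ← sub_eq_add_neg]

theorem D_mul (f g : MvPolynomial (Fin w × Fin w) L) : D X (f * g) =
    D X f * MvPolynomial.eval (pt w L) g + MvPolynomial.eval (pt w L) f * D X g := by
  unfold D
  rw [Finset.sum_mul, Finset.mul_sum, ← Finset.sum_add_distrib]
  refine Finset.sum_congr rfl fun z _ => ?_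
  rw [MvPolynomial.pderiv_mul, map_add, map_mul, map_mul]
  ring

theorem D_C (c : L) : D X (MvPolynomial.C c) = 0 := by
  unfold D
  refine Finset.sum_eq_zero fun z _ => ?_
  rw [MvPolynomial.pderiv_C, map_zero, zero_mul]

theorem D_one : D X 1 = 0 := by
  rw [← MvPolynomial.C_1]
  exact D_C X 1

theorem D_X (i j : Fin w) : D X (MvPolynomial.X (i, j)) = X i j := by
  unfold D
  rw [Finset.sum_eq_single (i, j)]
  · rw [MvPolynomial.pderiv_X_self, map_one, one_mul]
  · intro z _ hz
    rw [MvPolynomial.pderiv_X_of_ne hz.symm, map_zero, zero_mul]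
  · intro h
    exact absurd (Finset.mem_univ _) h

theorem D_sum {ι : Type*} (s : Finset ι) (f : ι → MvPolynomial (Fin w × Fin w) L) :
    D X (∑ i ∈ s, f i) = ∑ i ∈ s, D X (f i) := by
  classical
  induction s using Finset.induction_on with
  | empty => rw [Finset.sum_empty, Finset.sum_empty, D_zero]
  | insert a s ha ih => rw [Finset.sum_insert ha, Finset.sum_insert ha, D_add, ih]

theorem D_prod {ι : Type*} [DecidableEq ι] (s : Finset ι)
    (f : ι → MvPolynomial (Fin w × Fin w) L) :
    D X (∏ i ∈ s, f i) = ∑ i ∈ s, D X (f i) * ∏ j ∈ s.erase i, MvPolynomial.eval (pt w L) (f j) := by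
  induction s using Finset.induction_on with
  | empty => rw [Finset.prod_empty, Finset.sum_empty, D_one]
  | insert a s ha ih =>
    rw [Finset.prod_insert ha, Finset.sum_insert ha, D_mul, ih, Finset.erase_insert ha, map_prod,
      Finset.mul_sum]
    congr 1
    refine Finset.sum_congr rfl fun i hi => ?_
    have hne : a ≠ i := fun h => ha (h ▸ hi)
    rw [Finset.erase_insert_of_ne hne, Finset.prod_insert (fun h => ha (Finset.mem_of_mem_erase h))]
    ring

theorem D_pow (f : MvPolynomial (Fin w × Fin w) L) (n : ℕ) : D X (f ^ n) =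
    n * MvPolynomial.eval (pt w L) f ^ (n - 1) * D X f := by
  induction n with
  | zero =>
    rw [pow_zero, D_one, Nat.cast_zero, zero_mul, zero_mul]
  | succ n ih =>
    rw [pow_succ, D_mul, ih, map_pow, Nat.add_sub_cancel]
    rcases n with _ | n
    · simp
    · rw [Nat.add_sub_cancel, Nat.cast_succ (n + 1)]
      ring

variable {κ : Type} [Fintype κ] [DecidableEq κ]

/-- The polynomial of the action on a form. -/
def FP (t : (κ → Fin w) → L) (J : κ → Fin w) : MvPolynomial (Fin w × Fin w) L :=
  ∑ J' : κ → Fin w, MvPolynomial.C (t J') * ∏ k, MvPolynomial.X (J' k, J k)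

theorem FP_eval (t : (κ → Fin w) → L) (J : κ → Fin w) (g : Matrix (Fin w) (Fin w) L) :
    MvPolynomial.eval (fun z => g z.1 z.2) (FP t J) = ∑ J' : κ → Fin w, (∏ k, g (J' k) (J k)) * t J' := by
  unfold FP
  rw [map_sum]
  refine Finset.sum_congr rfl fun J' _ => ?_
  rw [map_mul, MvPolynomial.eval_C, map_prod, mul_comm]
  congr 1
  refine Finset.prod_congr rfl fun k _ => ?_
  rw [MvPolynomial.eval_X]

theorem FP_D (t : (κ → Fin w) → L) (J : κ → Fin w) :
    D X (FP t J) = ∑ k, ∑ l, X l (J k) * t (Function.update J k l) := by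
  unfold FP
  rw [D_sum]
  have h1 : ∀ J' : κ → Fin w, D X (MvPolynomial.C (t J') * ∏ k, MvPolynomial.X (J' k, J k)) =
      ∑ k, (if J' = Function.update J k (J' k) then X (J' k) (J k) * t J' else 0) := by
    intro J'
    rw [D_mul, D_C, zero_mul, zero_add, MvPolynomial.eval_C, D_prod, Finset.mul_sum]
    refine Finset.sum_congr rfl fun k _ => ?_
    rw [D_X]
    by_cases h : J' = Function.update J k (J' k)
    · rw [if_pos h, Finset.prod_eq_one, mul_one, mul_comm]
      intro j hj
      rw [MvPolynomial.eval_X]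
      unfold pt
      have hjk : j ≠ k := Finset.ne_of_mem_erase hj
      have h2 : J' j = J j := by
        rw [h, Function.update_of_ne hjk]
      change (1 : Matrix (Fin w) (Fin w) L) (J' j) (J j) = 1
      rw [h2, Matrix.one_apply_eq]
    · rw [if_neg h]
      have h2 : ∃ j, j ≠ k ∧ J' j ≠ J j := by
        by_contra hcon
        push Not at hcon
        apply h
        funext j
        by_cases hj : j = k
        · subst hj
          rw [Function.update_self]
        · rw [Function.update_of_ne hj, hcon j hj]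
      obtain ⟨j, hj, hne⟩ := h2
      rw [Finset.prod_eq_zero (Finset.mem_erase.2 ⟨hj, Finset.mem_univ j⟩), mul_zero, mul_zero]
      rw [MvPolynomial.eval_X]
      exact Matrix.one_apply_ne hne
  rw [Finset.sum_congr rfl fun J' _ => h1 J', Finset.sum_comm]
  refine Finset.sum_congr rfl fun k _ => ?_
  rw [← Finset.sum_filter]
  refine Finset.sum_bij (fun J' _ => J' k) (fun _ _ => mem_univ _) ?_ ?_ ?_
  · intro K hK K' hK' hKL
    rw [Finset.mem_filter] at hK hK'
    rw [hK.2, hK'.2, hKL]
  · intro l _
    refine ⟨Function.update J k l, ?_, ?_⟩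
    · rw [Finset.mem_filter]
      refine ⟨mem_univ _, ?_⟩
      rw [Function.update_self]
    · rw [Function.update_self]
  · intro K hK
    rw [Finset.mem_filter] at hK
    rw [← hK.2]

/-- The polynomial of the multiplier. -/
def MP (E : Matrix (Fin w) (Fin w) L) (a b : Fin w) : MvPolynomial (Fin w × Fin w) L :=
  ∑ p, ∑ q, MvPolynomial.C (E p q) * (MvPolynomial.X (p, a) * MvPolynomial.X (q, b))

theorem MP_eval (E : Matrix (Fin w) (Fin w) L) (a b : Fin w) (g : Matrix (Fin w) (Fin w) L) :
    MvPolynomial.eval (fun z => g z.1 z.2) (MP E a b) = (g.transpose * E * g) a b := by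
  unfold MP
  rw [Matrix.mul_apply]
  simp only [map_sum, map_mul, MvPolynomial.eval_C, MvPolynomial.eval_X, Matrix.mul_apply,
    Matrix.transpose_apply, Finset.sum_mul]
  rw [Finset.sum_comm]
  refine Finset.sum_congr rfl fun q _ => Finset.sum_congr rfl fun p _ => ?_
  ring

theorem MP_one (E : Matrix (Fin w) (Fin w) L) (a b : Fin w) :
    MvPolynomial.eval (pt w L) (MP E a b) = E a b := by
  have h := MP_eval E a b 1
  rw [Matrix.transpose_one, Matrix.one_mul, Matrix.mul_one] at h
  exact h

theorem MP_D (E : Matrix (Fin w) (Fin w) L) (a b : Fin w) :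
    D X (MP E a b) = (X.transpose * E + E * X) a b := by
  unfold MP
  rw [D_sum]
  simp only [D_sum, D_mul, D_C, zero_mul, zero_add, MvPolynomial.eval_C, D_X, MvPolynomial.eval_X]
  have h1 : ∀ p q : Fin w, E p q * (X p a * pt w L (q, b) + pt w L (p, a) * X q b) =
      (if q = b then X p a * E p q else 0) + (if p = a then E p q * X q b else 0) := by
    intro p q
    unfold pt
    simp only [Matrix.one_apply]
    split_ifs <;> ring
  simp only [h1, Finset.sum_add_distrib, Finset.sum_ite_eq', Finset.mem_univ, if_true]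
  rw [Matrix.add_apply, Matrix.mul_apply, Matrix.mul_apply]
  congr 1
  rw [Finset.sum_comm]
  simp only [Finset.sum_ite_eq', Finset.mem_univ, if_true]

variable {Γ : Type} [Group Γ] {ρ : Γ →* Matrix (Fin w) (Fin w) L} {χ : Γ →* Lˣ}
  {E : Matrix (Fin w) (Fin w) L}

/-- **The derivative of the invariance.** -/
theorem act_tate (hS : Symp ρ χ E) {t : (κ → Fin w) → L} {r : ℕ} (hr : Fintype.card κ = 2 * r)
    {Δ : Subgroup Γ} (ht : ∀ γ ∈ Δ, ∀ J,
      ∑ J' : κ → Fin w, (∏ k, ρ γ (J' k) (J k)) * t J' = (χ γ : L) ^ r * t J)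
    {X : Matrix (Fin w) (Fin w) L} {c : L} (hX : X.transpose * E + E * X = c • E)
    (hL : InLie (ρ '' (Δ : Set Γ)) X) (J : κ → Fin w) :
    ∑ k, ∑ l, X l (J k) * t (Function.update J k l) = r * c * t J := by
  by_cases hE : ∃ a b, E a b ≠ 0
  · obtain ⟨a, b, hab⟩ := hE
    have h1 := hL (MvPolynomial.C (E a b ^ r) * FP t J - MvPolynomial.C (t J) * MP E a b ^ r) (by
      rintro _ ⟨γ, hγ, rfl⟩
      rw [map_sub, map_mul, map_mul, MvPolynomial.eval_C, MvPolynomial.eval_C, map_pow, FP_eval,
        MP_eval, ht γ hγ, hS.sim, Matrix.smul_apply, smul_eq_mul, mul_pow]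
      ring)
    change D X _ = 0 at h1
    rw [D_sub, D_mul, D_mul, D_C, D_C, zero_mul, zero_add, zero_mul, zero_add,
      MvPolynomial.eval_C, MvPolynomial.eval_C, FP_D, D_pow, MP_one, MP_D, hX, Matrix.smul_apply,
      smul_eq_mul] at h1
    have h2 : E a b ^ r * (∑ k, ∑ l, X l (J k) * t (Function.update J k l) - r * c * t J) = 0 := by
      rcases r with _ | r
      · rw [Nat.cast_zero, zero_mul, zero_mul, mul_zero, sub_zero] at h1
        rw [Nat.cast_zero, zero_mul, zero_mul, sub_zero]
        exact h1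
      · rw [Nat.add_sub_cancel] at h1
        rw [mul_sub]
        have h3 : E a b ^ (r + 1) * ((r + 1 : ℕ) * c * t J) =
            t J * ((r + 1 : ℕ) * E a b ^ r * (c * E a b)) := by
          ring
        rw [h3]
        exact h1
    exact sub_eq_zero.1 ((mul_eq_zero.1 h2).resolve_left (pow_ne_zero r hab))
  · push Not at hE
    have h1 : E = 0 := by
      ext a b
      exact hE a b
    have h2 : w = 0 := by
      by_contra hw
      have h3 := hS.unit
      have : Nonempty (Fin w) := ⟨⟨0, Nat.pos_of_ne_zero hw⟩⟩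
      rw [h1, Matrix.det_zero] at h3
      exact not_isUnit_zero h3
    subst h2
    have : IsEmpty κ := ⟨fun k => (J k).elim0⟩
    have h3 : r = 0 := by
      have h4 : Fintype.card κ = 0 := Fintype.card_eq_zero
      omega
    rw [h3, Finset.univ_eq_empty, Finset.sum_empty, Nat.cast_zero, zero_mul, zero_mul]

end

end Pool.Agent.L5helper73.TC
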