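import Mathlib
import Pool.Agent.L5helper73.TC.T1
import Pool.Agent.L5helper73.TC.T2

/-!
# The reduction theorem for coefficient systems on symplectic representations
-/

set_option linter.unusedSectionVars false

namespace Pool.Agent.L5helper73.TC

open Module Finset Pool.Agent.L5helper73.CC Pool.Agent.Y90

noncomputable section

variable {L : Type} [Field L] [CharZero L] {Γ : Type} [Group Γ] {w : ℕ}
  {ρ : Γ →* Matrix (Fin w) (Fin w) L} {χ : Γ →* Lˣ} {E : Matrix (Fin w) (Fin w) L}
  {I : Type} [Fintype I] [DecidableEq I] {st : I → I} {P : I → Matrix (Fin w) (Fin w) L}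

/-- The bilinear form. -/
def om (E : Matrix (Fin w) (Fin w) L) : (Fin w → L) →ₗ[L] (Fin w → L) →ₗ[L] L :=
  Matrix.toLinearMap₂' L E

theorem om_apply (u v : Fin w → L) : om E u v = dotProduct u (E.mulVec v) := by
  unfold om
  rw [Matrix.toLinearMap₂'_apply']

/-- The projectors. -/
def PP (P : I → Matrix (Fin w) (Fin w) L) (i : I) : (Fin w → L) →ₗ[L] (Fin w → L) :=
  Matrix.toLin' (P i)

theorem dat (hS : Symp ρ χ E) (hP : TC.Coeff ρ E st P) : Dat (om E) (PP P) st := by
  have hsk : ∀ u v, om E u v = -om E v u := by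
    intro u v
    rw [om_apply, om_apply, Matrix.dotProduct_mulVec, ← Matrix.mulVec_transpose, hS.alt,
      Matrix.neg_mulVec, neg_dotProduct, dotProduct_comm]
  refine ⟨fun u => ?_, fun u hu => ?_, hP.inv, fun i u => ?_, fun i j hij u => ?_, fun u => ?_,
    fun i u v => ?_⟩
  · have h1 := hsk u u
    have h2 : (2 : L) * om E u u = 0 := by linear_combination h1
    exact (mul_eq_zero.1 h2).resolve_left two_ne_zero
  · have h0 : E.mulVec u = 0 := by
      funext k
      have h1 := hu (Pi.single k 1)
      rw [hsk, om_apply, neg_eq_zero, single_one_dotProduct] at h1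
      exact h1
    have h2 := (Matrix.isUnit_iff_isUnit_det E).2 hS.unit
    have h3 : Function.Injective E.mulVec := Matrix.mulVec_injective_of_isUnit h2
    apply h3
    rw [h0, Matrix.mulVec_zero]
  · unfold PP
    rw [Matrix.toLin'_apply, Matrix.toLin'_apply, Matrix.mulVec_mulVec, hP.idem]
  · unfold PP
    rw [Matrix.toLin'_apply, Matrix.toLin'_apply, Matrix.mulVec_mulVec, hP.orth i j hij,
      Matrix.zero_mulVec]
  · unfold PP
    simp only [Matrix.toLin'_apply]
    rw [← Matrix.sum_mulVec, hP.sum, Matrix.one_mulVec]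
  · unfold PP
    rw [om_apply, om_apply, Matrix.toLin'_apply, Matrix.toLin'_apply, Matrix.mulVec_mulVec,
      ← hP.adj, ← Matrix.mulVec_mulVec, Matrix.dotProduct_mulVec, Matrix.dotProduct_mulVec,
      Matrix.vecMul_transpose, ← Matrix.dotProduct_mulVec]

/-- The matrix of a good operator. -/
theorem good {g : Matrix (Fin w) (Fin w) L} :
    Good (om E) (PP P) (Matrix.toLin' g) ↔ (∀ i, g * P i = P i * g) ∧
      g.transpose * E + E * g = 0 := by
  constructor
  · intro h
    refine ⟨fun i => ?_, ?_⟩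
    · apply Matrix.toLin'.injective
      rw [Matrix.toLin'_mul, Matrix.toLin'_mul]
      exact LinearMap.ext fun u => h.com i u
    · apply (Matrix.toLinearMap₂' L : Matrix (Fin w) (Fin w) L ≃ₗ[L]
        (Fin w → L) →ₗ[L] (Fin w → L) →ₗ[L] L).injective
      refine LinearMap.ext fun u => LinearMap.ext fun v => ?_
      rw [map_zero, LinearMap.zero_apply, LinearMap.zero_apply, Matrix.toLinearMap₂'_apply',
        Matrix.add_mulVec, dotProduct_add, ← Matrix.mulVec_mulVec, ← Matrix.mulVec_mulVec]
      have h1 := h.skew u v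
      rw [om_apply, om_apply, Matrix.toLin'_apply, Matrix.toLin'_apply] at h1
      rw [Matrix.dotProduct_mulVec u g.transpose, Matrix.vecMul_transpose, h1]
      ring
  · rintro ⟨h1, h2⟩
    refine ⟨fun i u => ?_, fun u v => ?_⟩
    · unfold PP
      rw [Matrix.toLin'_apply, Matrix.toLin'_apply, Matrix.toLin'_apply, Matrix.toLin'_apply,
        Matrix.mulVec_mulVec, Matrix.mulVec_mulVec, h1]
    · rw [om_apply, om_apply, Matrix.toLin'_apply, Matrix.toLin'_apply]
      have h3 : E * g = -(g.transpose * E) := by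
        rw [eq_neg_iff_add_eq_zero, add_comm]
        exact h2
      rw [Matrix.mulVec_mulVec, h3, Matrix.neg_mulVec, dotProduct_neg, neg_neg,
        ← Matrix.mulVec_mulVec, Matrix.dotProduct_mulVec u g.transpose, Matrix.vecMul_transpose]

theorem tr_toLin (g : Matrix (Fin w) (Fin w) L) (i : I) :
    tr (PP P) (Matrix.toLin' g) i = (g * P i).trace := by
  unfold tr PP
  rw [← Matrix.toLin'_mul, Matrix.trace_toLin'_eq]

/-- A Tate form is killed by the operators of trace zero on the pieces. -/
theorem kill (hS : Symp ρ χ E) (hbig : TC.BigMonodromy ρ E P) {κ : Type} [Fintype κ] [DecidableEq κ]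
    {t : (κ → Fin w) → L} (ht : IsTate ρ χ t) (X : (Fin w → L) →ₗ[L] (Fin w → L))
    (hX : Good (om E) (PP P) X) (hX' : ∀ i, tr (PP P) X i = 0) (v : κ → Fin w → L) :
    act (mm t) X v = 0 := by
  have hXg : X = Matrix.toLin' (LinearMap.toMatrix' X) := (Matrix.toLin'_toMatrix' X).symm
  rw [hXg] at hX hX' ⊢
  obtain ⟨h1, h2⟩ := good.1 hX
  obtain ⟨r, hr, Δ, hΔ, ht⟩ := ht
  have h3 := hbig _ h1 h2 (fun i => by rw [← tr_toLin]; exact hX' i) Δ hΔ
  have h4 := act_of (mm t) (LinearMap.toMatrix' X) 0 (fun J => by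
    rw [evS_mm, act_tate hS hr ht (c := 0) (by rw [h2, zero_smul]) h3 J]
    ring) v
  rw [h4, zero_mul]

/-- A Tate form is killed by the Hodge-Tate projectors shifted by one half. -/
theorem kill_ht (hS : Symp ρ χ E) {U : Type} {h : U → Matrix (Fin w) (Fin w) L}
    (hh : HodgeTate ρ E P h) {κ : Type} [Fintype κ] [DecidableEq κ]
    {t : (κ → Fin w) → L} (ht : IsTate ρ χ t) (u : U) (v : κ → Fin w → L) :
    act (mm t) (Matrix.toLin' (h u) + (-(1 / 2) : L) • LinearMap.id) v = 0 := by
  obtain ⟨r, hr, Δ, hΔ, ht⟩ := ht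
  have h4 := act_of (mm t) (h u) r (fun J => by
    rw [evS_mm, act_tate hS hr ht (c := 1) (by rw [hh.adj, one_smul]) (hh.mon u Δ hΔ) J]
    ring) v
  have h5 : act (mm t) (LinearMap.id : (Fin w → L) →ₗ[L] (Fin w → L)) v = (2 * r) * mm t v := by
    unfold act
    have h6 : ∀ k, mm t (Function.update v k ((LinearMap.id : (Fin w → L) →ₗ[L] (Fin w → L)) (v k))) =
        mm t v := by
      intro k
      rw [LinearMap.id_apply, Function.update_eq_self]
    rw [Finset.sum_congr rfl fun k _ => h6 k, Finset.sum_const, Finset.card_univ, hr,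
      nsmul_eq_mul]
    push_cast
    ring
  rw [act_add, act_smul, h4, h5]
  ring

theorem good_ht {U : Type} {h : U → Matrix (Fin w) (Fin w) L}
    (hh : HodgeTate ρ E P h) (u : U) :
    Good (om E) (PP P) (Matrix.toLin' (h u) + (-(1 / 2) : L) • LinearMap.id) := by
  have h1 : Matrix.toLin' (h u) + (-(1 / 2) : L) • LinearMap.id =
      Matrix.toLin' (h u - (1 / 2 : L) • (1 : Matrix (Fin w) (Fin w) L)) := by
    refine LinearMap.ext fun v => ?_
    rw [LinearMap.add_apply, LinearMap.smul_apply, LinearMap.id_apply, map_sub,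
      LinearMap.sub_apply, map_smul, LinearMap.smul_apply, Matrix.toLin'_one, LinearMap.id_apply,
      neg_smul, sub_eq_add_neg]
  rw [h1, good]
  refine ⟨fun i => ?_, ?_⟩
  · rw [sub_mul, mul_sub, hh.comm, smul_mul_assoc, one_mul, mul_smul_comm, mul_one]
  · rw [Matrix.transpose_sub, Matrix.transpose_smul, Matrix.transpose_one, sub_mul, mul_sub,
      smul_mul_assoc, one_mul, mul_smul_comm, mul_one]
    have h2 := hh.adj u
    have h3 : (h u).transpose * E - (1 / 2 : L) • E + (E * h u - (1 / 2 : L) • E) =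
        ((h u).transpose * E + E * h u) - E := by
      have h4 : (1 / 2 : L) • E + (1 / 2 : L) • E = E := by
        rw [← add_smul, add_halves, one_smul]
      calc _ = ((h u).transpose * E + E * h u) - ((1 / 2 : L) • E + (1 / 2 : L) • E) := by abel
        _ = _ := by rw [h4]
    rw [h3, h2, sub_self]

theorem tr_ht {U : Type} {h : U → Matrix (Fin w) (Fin w) L} (u : U) (i : I) :
    tr (PP P) (Matrix.toLin' (h u) + (-(1 / 2) : L) • LinearMap.id) i =
      (h u * P i).trace - (P i).trace / 2 := by
  have h1 : Matrix.toLin' (h u) + (-(1 / 2) : L) • LinearMap.id =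
      Matrix.toLin' (h u - (1 / 2 : L) • (1 : Matrix (Fin w) (Fin w) L)) := by
    refine LinearMap.ext fun v => ?_
    rw [LinearMap.add_apply, LinearMap.smul_apply, LinearMap.id_apply, map_sub,
      LinearMap.sub_apply, map_smul, LinearMap.smul_apply, Matrix.toLin'_one, LinearMap.id_apply,
      neg_smul, sub_eq_add_neg]
  rw [h1, tr_toLin, sub_mul, smul_mul_assoc, one_mul, Matrix.trace_sub, Matrix.trace_smul,
    smul_eq_mul]
  ring

section sys

variable {𝒜 : ∀ κ : Type, Submodule L ((κ → Fin w) → L)} (h𝒜 : TC.ClassSystem ρ χ 𝒜)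

variable (𝒜) in
/-- The system of multilinear forms. -/
def NN (κ : Type) [Finite κ] : Submodule L (MultilinearMap L (fun _ : κ => Fin w → L) L) :=
  (𝒜 κ).comap evS

theorem mem_NN {κ : Type} [Finite κ] {φ : MultilinearMap L (fun _ : κ => Fin w → L) L} :
    φ ∈ NN 𝒜 κ ↔ evS φ ∈ 𝒜 κ := Iff.rfl

include h𝒜 in
theorem clo : Clo (NN 𝒜) := by
  constructor
  · intro κ _ _ φ
    rw [mem_NN]
    have : Fintype κ := Fintype.ofFinite κ
    have h1 := h𝒜.perm _ _ (Equiv.equivOfIsEmpty (Fin 0) κ) _ h𝒜.one
    have h2 : evS φ = φ (fun k => isEmptyElim k) • fun _ : κ → Fin w => (1 : L) := by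
      funext J
      rw [evS_apply, Pi.smul_apply, smul_eq_mul, mul_one]
      congr 1
      funext k
      exact isEmptyElim k
    rw [h2]
    exact Submodule.smul_mem _ _ h1
  · intro κ κ' κ'' _ _ _ e φ φ' ψ hφ hφ' hψ
    rw [mem_NN] at hφ hφ' ⊢
    have : Fintype κ := Fintype.ofFinite κ
    have : Fintype κ' := Fintype.ofFinite κ'
    have : Fintype κ'' := Fintype.ofFinite κ''
    have h1 := h𝒜.mul κ κ' _ _ hφ hφ'
    have h2 := h𝒜.perm _ _ e _ h1
    have h3 : evS ψ = fun J => evS φ (fun k => J (e (Sum.inl k))) *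
        evS φ' (fun k => J (e (Sum.inr k))) := by
      funext J
      rw [evS_apply, hψ]
      rfl
    rw [h3]
    exact h2

include h𝒜 in
/-- The pairings are in the system. -/
theorem pair (hS : Symp ρ χ E) (hP : TC.Coeff ρ E st P) (i : I) :
    bil (om E ∘ₗ PP P i) ∈ NN 𝒜 (Fin 2) := by
  rw [mem_NN]
  refine h𝒜.bil _ ⟨1, by simp, ⊤, inferInstance, fun γ _ J => ?_⟩
  have h0 : ∀ J : Fin 2 → Fin w, evS (bil (om E ∘ₗ PP P i)) J = ((P i).transpose * E) (J 0) (J 1) := by
    intro J
    rw [evS_apply, bil_apply, LinearMap.comp_apply, om_apply]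
    unfold PP
    rw [Matrix.toLin'_apply, Matrix.mulVec_single_one, Matrix.mulVec_single_one, Matrix.mul_apply]
    rfl
  have h1 : (ρ γ).transpose * ((P i).transpose * E) * ρ γ = (χ γ : L) • ((P i).transpose * E) := by
    rw [← Matrix.mul_assoc, ← Matrix.transpose_mul, ← hP.comm, Matrix.transpose_mul,
      Matrix.mul_assoc, Matrix.mul_assoc, ← Matrix.mul_assoc (ρ γ).transpose, hS.sim,
      Matrix.mul_smul]
  have h2 := congrFun (congrFun h1 (J 0)) (J 1)
  rw [pow_one, h0]
  rw [Matrix.smul_apply, smul_eq_mul] at h2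
  rw [← h2]
  simp only [h0]
  rw [Matrix.mul_apply]
  simp only [Matrix.mul_apply (M := (ρ γ).transpose), Matrix.transpose_apply, Finset.sum_mul]
  rw [← (finTwoArrowEquiv (Fin w)).symm.sum_comp, Fintype.sum_prod_type_right]
  refine Finset.sum_congr rfl fun a _ => Finset.sum_congr rfl fun b _ => ?_
  rw [Fin.prod_univ_two]
  simp only [finTwoArrowEquiv_symm_apply, Matrix.cons_val_zero, Matrix.cons_val_one]
  ring

end sys

/-- **The reduction theorem.** -/
theorem thmT : S_T := by
  intro L _ _ Γ _ w ρ χ E I _ _ st P U h hS hP hbig hh 𝒜 h𝒜 hdet κ _ _ t ht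
  have key : mm t ∈ NN 𝒜 κ := by
    have hD := dat hS hP
    refine hD.core (NN 𝒜) (clo h𝒜) (fun i => pair h𝒜 hS hP i) (kill hS hbig ht) ?_
    intro τ a h0 ha ha0 ha1 ha2 n e lab b
    classical
    obtain ⟨Ψ, hΨ⟩ := exists_prodDet (Y := Fin w → L)
      (fun q : (Σ i, Fin (a i).toNat) => Mem lab q.1) (fun q y => e.coord y.1)
    refine ⟨Ψ, ?_, hΨ⟩
    rw [mem_NN]
    let f := (Fintype.equivFin (Σ i, Fin (a i).toNat)).symm
    let C : Fin (Fintype.card (Σ i, Fin (a i).toNat)) → I := fun q => (f q).1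
    have hpos : ∀ q, 0 < a (C q) := by
      intro q
      have h1 := (f q).2.2
      change 0 < a (f q).1
      omega
    have hcoord : ∀ (i : I) (y : Fin n ⊕ Fin n), lab y = i → ∀ v,
        e.coord y (PP P i v) = e.coord y v := by
      intro i y hy v
      have h1 : (e.coord y) ∘ₗ (PP P i) = e.coord y := by
        refine e.ext fun z => ?_
        rw [LinearMap.comp_apply, b.P]
        split_ifs with h2
        · rfl
        · rw [map_zero, Basis.coord_apply, Basis.repr_self, Finsupp.single_apply, if_neg]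
          intro h3
          apply h2
          rw [h3, hy]
      exact congrArg (fun g : (Fin w → L) →ₗ[L] L => g v) h1
    have hrank : ∀ i, (P i).rank = Fintype.card {x // lab x = i} := by
      intro i
      exact TC.rank (P i) (Fin n ⊕ Fin n) e (fun x => lab x = i) (fun x => by
        have h1 := b.P i x
        unfold PP at h1
        rw [Matrix.toLin'_apply] at h1
        exact h1)
    let e' : ∀ q, Mem lab (C q) ≃ Fin (P (C q)).rank := fun q =>
      Fintype.equivFinOfCardEq (hrank (C q)).symm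
    let r : ∀ q, Mem lab (C q) → Fin w → L := fun q y k => e.coord y.1 (Pi.single k 1)
    have hr : ∀ q y, Matrix.vecMul (r q y) (P (C q)) = r q y := by
      intro q y
      funext k
      have h1 := hcoord (C q) y.1 y.2 (Pi.single k 1)
      unfold PP at h1
      rw [Matrix.toLin'_apply, Matrix.mulVec_single_one] at h1
      have h2 : (P (C q)).col k = ∑ l, P (C q) l k • (Pi.single l 1 : Fin w → L) := by
        funext i
        rw [Finset.sum_apply, Finset.sum_eq_single i]
        · simp [Matrix.col]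
        · intro l _ hl
          rw [Pi.smul_apply, Pi.single_eq_of_ne hl.symm, smul_zero]
        · intro h
          exact absurd (Finset.mem_univ _) h
      rw [h2, map_sum] at h1
      change ∑ l, r q y l * P (C q) l k = e.coord y.1 (Pi.single k 1)
      refine Eq.trans ?_ h1
      refine Finset.sum_congr rfl fun l _ => ?_
      rw [map_smul, smul_eq_mul, mul_comm]
    have h1 := TC.minor _ (fun q => P (C q)) (fun q => Mem lab (C q)) (fun q => (P (C q)).rank) e' r
      hr
    have h2 : Submodule.span L (Set.range fun K : ∀ q, Fin (P (C q)).rank → Fin w =>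
        fun J : (Σ q, Fin (P (C q)).rank) → Fin w => ∏ q, ((P (C q)).submatrix (K q)
          fun a => J ⟨q, a⟩).det) ≤ 𝒜 (Σ q, Fin (P (C q)).rank) := by
      rw [Submodule.span_le]
      rintro _ ⟨K, rfl⟩
      refine hdet _ C (fun q hq => ?_) (fun q q' h => ?_) (fun u => ?_) K
      · have h3 : PP P (C q) = 0 := by
          unfold PP
          rw [hq, map_zero]
        have h4 := ha0 _ h3
        have h5 := hpos q
        omega
      · have h3 := ha (C q')
        have h4 : a (C q) = a (st (C q')) := congrArg a h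
        have h5 := hpos q
        have h6 := hpos q'
        omega
      · obtain ⟨v, hv⟩ : ∃ v, cmp (PP P) (mm t) τ v ≠ 0 := by
          by_contra hcon
          push Not at hcon
          exact h0 (MultilinearMap.ext hcon)
        have h3 := ha2 _ (good_ht hh u) v
        rw [act_cmp (good_ht hh u), kill_ht hS hh ht] at h3
        have h4 := (mul_eq_zero.1 h3.symm).resolve_right hv
        rw [← h4]
        simp only [tr_ht]
        exact Equiv.sum_comp f (fun q : (Σ i, Fin (a i).toNat) =>
          (h u * P q.1).trace - (P q.1).trace / 2)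
    let E' : (Σ q, Fin (P (C q)).rank) ≃ Σ q : (Σ i, Fin (a i).toNat), Mem lab q.1 :=
      (Equiv.sigmaCongrRight fun q => (e' q).symm).trans
        (Equiv.sigmaCongrLeft (β := fun q : (Σ i, Fin (a i).toNat) => Mem lab q.1) f)
    have h3 := h𝒜.perm _ _ E' _ (h2 h1)
    have h4 : evS Ψ = fun J => ∏ q, Matrix.det (Matrix.of fun y y' : Mem lab (C q) =>
        r q y' (J (E' ⟨q, e' q y⟩))) := by
      funext J
      rw [evS_apply, hΨ, ← f.prod_comp]
      refine Finset.prod_congr rfl fun q _ => ?_
      congr 1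
      ext y y'
      rw [Matrix.of_apply, Matrix.of_apply]
      change e.coord y'.1 (Pi.single (J ⟨f q, y⟩) 1) = e.coord y'.1 (Pi.single _ 1)
      congr 2
      have h5 : E' ⟨q, e' q y⟩ = ⟨f q, y⟩ := by
        change (⟨f q, (e' q).symm (e' q y)⟩ : Σ q : (Σ i, Fin (a i).toNat), Mem lab q.1) = _
        rw [Equiv.symm_apply_apply]
      rw [h5]
    rw [h4]
    exact h3
  rw [mem_NN, evS_mm] at key
  exact key

end

end Pool.Agent.L5helper73.TC
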